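import Pool.Agent.N671.DA.Mat
import Pool.Agent.Results.MP_209724_lc.RandomCombinations

/-!
# The axiom (SC) in bounded degree for combinations whose coefficients are the best approximations of linear forms

For every `j ≤ n` let `x_{j,1}, …, x_{j,k}` be arbitrary complex numbers which are linearly independent over `ℚ` (for
different `j` they may be the same), and let

  `z_j = ζ_j + a_{j,1} x_{j,1} + ⋯ + a_{j,k} x_{j,k}`

with integers `a_{j,t}` and arbitrary complex numbers `ζ_j`, for instance `0`. Schanuel's conjecture, the axiom (SC), says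
that the `2 n` numbers `z_1, …, z_n, e^{z_1}, …, e^{z_n}` have transcendence degree at least `n` if the `z_j` are linearly
independent.

Let `α` be a real matrix with `n k` rows and `h` columns, `β` in `ℝ^h` and `τ > 0`. We consider the integer vectors
`a = (a_{j,t})` such that `‖(a α)_i - β_i‖ ≤ κ |a| ^ (-τ)` for `i = 1, …, h`, `‖y‖` the distance to the nearest integer and `|a|`
the maximum norm; for `β = 0`, `κ = 1` and `τ = n k / h` they include all best approximation vectors of the system of linear
forms `a α`, by the theorem of Minkowski.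

**Theorem.** For every degree bound `D` there are `k₀` and `δ > 0`, which depend only on `n`, `D` and `l`, such that for all
`k ≥ k₀` and all `x` one can choose for every `j` one of the two numbers `z_j`, `e^{z_j}` (the choice depends on `x` only)
with the following property. Let `s_1, …, s_l` be numbers which satisfy no nonzero polynomial relation with algebraic
coefficients of degree at most `D` in each of them. Then for all `ζ` and all `α` outside a set of Hausdorff dimension at
most `(n k - 1) h + (h + n k - δ k) / (1 + τ)`, which is less than `n k h` for `τ = n k / h`, the same is true of `s_1, …, s_l`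
together with the `n` chosen numbers for ALL large integer vectors `a` of this kind.

The best approximation vectors are a very sparse sequence, about `log T` vectors of norm at most `T`, and so this does not
follow from the size of the exceptional set.

Proof. The starting theorem `RandomCombinations` of this problem bounds the number of exceptional matrices with entries in
`[-T, T]` by `C T^(n k - δ k)`. The matrices `α` with `‖(a α)_i - β_i‖ ≤ κ |a| ^ (-τ)` form neighbourhoods of parallel affine
subspaces, covered by cubes of side `|a| ^ (-1 - τ)` (`Pool.Agent.N671.DA`, engine of helper671).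
-/

set_option autoImplicit false

namespace Pool.Agent.V8H78.AV.Schanuel

open Pool.Agent.N671.DA (Near mat approx_matrices shrink)
open Pool.Agent.Results.MP_209724_lc.RandomCombinations (NoRelation comb)

/-- **(SC) in bounded degree at the best approximation vectors.** For all `n ≥ 1`, `l` and `D` there are `k₀` and `δ > 0` such
that for all `k ≥ k₀` and all complex `x_{j,t}`, `j ≤ n`, `t ≤ k`, with `x_{j,1}, …, x_{j,k}` linearly independent over `ℚ` for
every `j`, there is a choice `c` with the following property. Let `s_1, …, s_l` satisfy no relation of degree at most `D`,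
`ζ ∈ ℂ^n`, `β ∈ ℝ^h` and `τ > 0`. For all real matrices `α` with `n k` rows and `h` columns outside a set of Hausdorff dimension
at most `(n k - 1) h + (h + n k - δ k) / (1 + τ)` and all `κ`, for all large integer vectors `v` with
`‖(v α)_i - β_i‖ ≤ κ |v| ^ (-τ)` for `i = 1, …, h`, with the matrix `a = mat v` of its coordinates and
`z_j = ζ_j + ∑_t a_{j,t} x_{j,t}`, the numbers `s_1, …, s_l` together with the chosen numbers (`z_j` if `c_j` is true and
`e^{z_j}` otherwise) satisfy no nonzero polynomial relation with algebraic coefficients of degree at most `D` in each of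
them. -/
theorem result (l n D : ℕ) (hn : 1 ≤ n) : ∃ (k₀ : ℕ) (δ : ℝ), 0 < δ ∧ ∀ k ≥ k₀, ∀ x : Fin n → Fin k → ℂ,
    (∀ j, LinearIndependent ℚ (x j)) → ∃ c : Fin n → Bool,
    ∀ s : Fin l → ℂ, NoRelation D s → ∀ ζ : Fin n → ℂ,
    ∀ (h : ℕ) (β : Fin h → ℝ) (τ : ℝ), 0 < τ →
      ∃ E : Set (Fin (n * k) × Fin h → ℝ),
        dimH E ≤ ENNReal.ofReal (((n : ℝ) * k - 1) * h + (h + ((n : ℝ) * k - δ * k)) / (1 + τ)) ∧
        ∀ α, α ∉ E → ∀ κ : ℝ, ∃ Q : ℝ, ∀ v : Fin (n * k) → ℤ, Q ≤ ‖v‖ → Near α β v (κ * ‖v‖ ^ (-τ)) →
          NoRelation D (Sum.elim s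
            (fun j => if c j = true then comb ζ x (mat v) j else Complex.exp (comb ζ x (mat v) j))) := by
  classical
  obtain ⟨k₀, C, δ, hδ, hR⟩ := Pool.Agent.Results.MP_209724_lc.RandomCombinations.result l n D
  refine ⟨max k₀ 1, min δ 1, lt_min hδ one_pos, fun k hk x hx => ?_⟩
  obtain ⟨c, hc⟩ := hR k ((le_max_left _ _).trans hk) x hx
  refine ⟨c, fun s hs ζ h β τ hτ => ?_⟩
  have hk1 : 1 ≤ k := (le_max_right _ _).trans hk
  obtain ⟨Bad, hBad⟩ : ∃ Bad : (Fin n → Fin k → ℚ) → Prop, Bad = fun a => ¬ NoRelation D (Sum.elim s
            (fun j => if c j = true then comb ζ x a j else Complex.exp (comb ζ x a j))) := ⟨_, rfl⟩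
  obtain ⟨E, hE, hE2⟩ := approx_matrices (n := n) (k := k) (h := h) (C₀ := (C : ℝ)) (δ := min δ 1)
    (Nat.one_le_iff_ne_zero.2 (by positivity)) Bad (Nat.cast_nonneg C) (lt_min hδ one_pos) (min_le_right _ _)
    (fun A hA => by
      have h9 := (hc A hA s hs ζ).trans
        (shrink (n := n) (k := k) (δ := δ) (Nat.cast_nonneg C) hA.card_pos)
      refine le_trans (Nat.cast_le.2 (Finset.card_le_card ?_)) h9
      intro a ha
      rw [Finset.mem_filter] at ha ⊢
      refine ⟨ha.1, ?_⟩
      have h10 := ha.2
      rw [hBad] at h10
      exact h10) β hτ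
  refine ⟨E, hE, fun α hα κ => ?_⟩
  obtain ⟨Q, hQ⟩ := hE2 α hα κ
  refine ⟨Q, fun v hv h1 => ?_⟩
  have h2 := hQ v hv h1
  rw [hBad] at h2
  exact not_not.1 h2

end Pool.Agent.V8H78.AV.Schanuel
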